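import Mathlib
import Pool.Agent.Work.MP_610017_lc.GP.FinalP

/-!
# A hierarchy of growth rates: totality of `x ^ g x` does not give the consequences of `x ^ h x`

All definitions are in `Pool/Agent/Work/MP_610017_lc/Logic.lean`, except `PHP` and `CountMod`, the
pigeonhole principle and the counting principles for all bounded formulas, which are in
`Pool/Agent/Work/MP_610017_lc/PP/Def.lean`.
-/

set_option autoImplicit false

namespace Pool.Agent.Results.MP_610017_lc.GrowthHierarchy

open Pool.Agent.Work.MP_610017_lc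

/-- There is a bounded formula `θ (x, y)` with one new relation symbol `R` with the following
properties. (1) It holds in every model of `I Delta_0 (R)` for all `x, y` such that `x ^ y` exists.
(2) Let `g, h` be functions on the natural numbers, `g` monotone and tending to infinity, such that
for every `J` there is `J'` with `g (x ^ (g x ^ J)) ≤ g x ^ J'` for large `x`; let `g x ^ J ≤ h x`
for large `x`, for every `J`, and `2 ^ h x ≤ x`. Then there is a model of `I Delta_0 (R)`, of the
pigeonhole principle and all modular counting principles for all bounded formulas (with `R`) and of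
all true bounded formulas without `R` in which `x ^ y` with `y = g x` exists for every `x`, but
`θ (x, y)` fails for some `x` and `y = h x`. Here `y = g x` means that all bounded formulas without
`R` which are true for all pairs `a, g a` of natural numbers are true for the pair `x, y`, and
`y = h x` means that all bounded formulas without `R` which are true for almost all pairs `a, h a`
are true for `x, y`. (3) For every `h` which tends to infinity there is such a function `g`. -/
theorem result : ∃ θ : Fm 2,
    (∀ (M : Type) (N : Str M), IDelta0 N → ∀ (e : Fin 2 → M) (z : M),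
      IsPow N (e 0) (e 1) z → θ.sat N e) ∧
    (∀ g h : ℕ → ℕ, Monotone g → Filter.Tendsto g Filter.atTop Filter.atTop →
      (∀ J, ∃ J' x0, ∀ x, x0 ≤ x → g (x ^ (g x ^ J)) ≤ g x ^ J') →
      (∀ J, ∃ x0, ∀ x, x0 ≤ x → g x ^ J ≤ h x) → (∀ x, 1 ≤ x → 2 ^ h x ≤ x) →
      ∃ (M : Type) (N : Str M), IDelta0 N ∧ PHP N ∧ (∀ q : ℕ, 1 ≤ q → CountMod N q) ∧
        (∀ (v : ℕ) (φ : Fm v), φ.RFree → (∀ e : Fin v → ℕ, φ.sat stdN e) →
          ∀ e : Fin v → M, φ.sat N e) ∧
        (∀ x : M, ∃ y : M, (∃ z, IsPow N x y z) ∧
          ∀ φ : Fm 2, φ.RFree → (∀ a : ℕ, φ.sat stdN ![a, g a]) → φ.sat N ![x, y]) ∧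
        ∃ e : Fin 2 → M, ¬ θ.sat N e ∧
          ∀ φ : Fm 2, φ.RFree → (∃ x0, ∀ x, x0 ≤ x → φ.sat stdN ![x, h x]) → φ.sat N e) ∧
    ∀ h : ℕ → ℕ, Filter.Tendsto h Filter.atTop Filter.atTop →
      ∃ g : ℕ → ℕ, Monotone g ∧ Filter.Tendsto g Filter.atTop Filter.atTop ∧
        (∀ J, ∃ J' x0, ∀ x, x0 ≤ x → g (x ^ (g x ^ J)) ≤ g x ^ J') ∧
        ∀ J, ∃ x0, ∀ x, x0 ≤ x → g x ^ J ≤ h x :=
  PP.pf_GGP_full

end Pool.Agent.Results.MP_610017_lc.GrowthHierarchy
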