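import Mathlib
import Pool.Agent.Work.MP_610017_lc.PP.Main

/-!
# The relativised form of Q1 has a negative answer, even over the pigeonhole principle and all
modular counting principles

`I Delta_0 (R) + Omega_1` is not `Pi_1 (R)`-conservative over `I Delta_0 (R)`, not even over
`I Delta_0 (R) + PHP + Count_q` for all `q`, together with all true `Pi_1` sentences of the language
of arithmetic. Here `PHP` and `Count_q` are the pigeonhole principle and the counting principle
modulo `q` for all bounded formulas, in which `R` may occur.

The definitions are in `Pool/Agent/Work/MP_610017_lc/Logic.lean`; `PHP` and `CountMod` are in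
`Pool/Agent/Work/MP_610017_lc/PP/Def.lean`.
-/

set_option autoImplicit false

namespace Pool.Agent.Results.MP_610017_lc.RelativisedQ1

open Pool.Agent.Work.MP_610017_lc

/-- There is a bounded formula `θ` in two free variables of the language `0, S, +, *, ≤, R`, where
`R` is one new relation symbol, such that `θ` holds for all values of its variables in every model
of `I Delta_0 (R) + Omega_1`, but not in a certain model of `I Delta_0 (R)`, which moreover
satisfies the pigeonhole principle and, for every `q ≥ 1`, the counting principle modulo `q`, both
for all bounded formulas (with `R` and with parameters), and all bounded formulas without `R` that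
are true in the standard model. -/
theorem result : ∃ θ : Fm 2,
    (∀ (M : Type) (N : Str M), IDelta0 N → Omega1 N → ∀ e : Fin 2 → M, θ.sat N e) ∧
    ∃ (M : Type) (N : Str M), IDelta0 N ∧ PHP N ∧ (∀ q : ℕ, 1 ≤ q → CountMod N q) ∧
      (∀ (v : ℕ) (φ : Fm v), φ.RFree → (∀ e : Fin v → ℕ, φ.sat stdN e) →
        ∀ e : Fin v → M, φ.sat N e) ∧
      ∃ e : Fin 2 → M, ¬ θ.sat N e :=
  pf_MainP

end Pool.Agent.Results.MP_610017_lc.RelativisedQ1
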